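import Pool.Agent.H31.LV.Defs

/-!
# Power saving above the square root barrier: the Weyl end, targets (helper31)

Sections 6 and 7 of the page E21_LV.md. Every `W_X` is a proposition to be proved in a module of
its own; the last two rows are `E_WE` and `E_DW` of `Pool.Agent.H24.LV.TargetsE`.
-/

set_option autoImplicit false

open Finset MeasureTheory

namespace Pool.Agent.H31.LV

open Pool.Agent.H24.CL Pool.Agent.H24.LV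

/-! ## A. The inverse theorem of Weyl -/

/-- GE: the geometric sum. -/
def W_GE : Prop :=
  ∀ (A B : ℕ) (c : ℝ), ‖∑ n ∈ Ico A B, ee (c * n)‖ * |c - round c| ≤ 1 / 2

/-- DI: differencing. -/
def W_DI : Prop :=
  ∀ (N A B : ℕ) (f : ℕ → ℂ) (δ : ℝ), 1 ≤ N → A ≤ B → B ≤ A + N → 0 < δ → δ ≤ 1 →
    (∀ n, ‖f n‖ ≤ 1) → δ * N ≤ ‖∑ n ∈ Ico A B, f n‖ →
    δ ^ 2 / 4 * N ≤ (((range N).filter fun h => δ ^ 2 / 4 * N ≤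
      ‖∑ n ∈ Ico A (B - h), f (n + h) * (starRingEnd ℂ) (f n)‖).card : ℝ)

/-- VL: Vinogradov's lemma: a number with many multiples close to integers is close to a fraction
with a small denominator. -/
def W_VL : Prop :=
  ∀ (α ε δ : ℝ) (N : ℕ) (S : Finset ℕ), 0 < δ → δ ≤ 1 → 0 ≤ ε → ε ≤ δ / 64 → 4 ≤ δ * N →
    S ⊆ range N → δ * N ≤ (S.card : ℝ) → (∀ h ∈ S, ∃ m : ℤ, |h * α - m| ≤ ε) →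
    ∃ q : ℕ, 1 ≤ q ∧ (q : ℝ) ≤ 4 / δ ∧ ∃ m : ℤ, |q * α - m| ≤ 8 * ε / (δ * N)

/-- WT: the leading coefficient. -/
def W_WT : Prop :=
  ∀ d : ℕ, 1 ≤ d → ∃ C : ℝ, 1 ≤ C ∧ ∀ (N A B : ℕ) (c : ℕ → ℝ) (δ : ℝ), 1 ≤ N → A ≤ B →
    B ≤ A + N → 0 < δ → δ ≤ 1 → δ * N ≤ ‖∑ n ∈ Ico A B, ee (pl d c n)‖ →
    ∃ q : ℕ, 1 ≤ q ∧ (q : ℝ) ≤ C * δ ^ (-C) ∧
      ∃ a : ℤ, |q * c (d - 1) - a| ≤ C * δ ^ (-C) / (N : ℝ) ^ d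

/-- WR: if the leading coefficient is close to a fraction, then the sum over some progression of a
polynomial of smaller degree is large. -/
def W_WR : Prop :=
  ∀ d : ℕ, ∃ C : ℝ, 1 ≤ C ∧ ∀ (N A B q : ℕ) (c : ℕ → ℝ) (δ Q : ℝ) (a : ℤ), 1 ≤ N → A ≤ B →
    B ≤ N → 0 < δ → δ ≤ 1 → 1 ≤ q → (q : ℝ) ≤ Q → |q * c d - a| ≤ Q / (N : ℝ) ^ (d + 1) →
    δ * N ≤ ‖∑ n ∈ Ico A B, ee (pl (d + 1) c n)‖ → C * Q / δ ≤ N →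
    ∃ n T : ℕ, n < N ∧ 1 ≤ T ∧ T ≤ N ∧ δ * N / (C * Q) ≤ T ∧
      δ / 4 * T ≤ ‖∑ m ∈ range T, ee (pl d (phr d q n c) m)‖

/-- WD: from the coefficients on a progression to the coefficients. -/
def W_WD : Prop :=
  ∀ d : ℕ, ∃ C : ℝ, 1 ≤ C ∧ ∀ (q n N q₂ : ℕ) (c : ℕ → ℝ) (E : ℝ), 1 ≤ q → 1 ≤ N → n ≤ N →
    0 ≤ E → (∀ i < d, ∃ a : ℤ, |q₂ * phr d q n c i - a| ≤ E / (N : ℝ) ^ (i + 1)) →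
    ∀ i < d, ∃ a : ℤ, |((q₂ * q ^ d : ℕ) : ℝ) * c i - a| ≤
      C * (q : ℝ) ^ d * E / (N : ℝ) ^ (i + 1)

/-- WI: the inverse theorem with all coefficients. -/
def W_WI : Prop :=
  ∀ d : ℕ, ∃ C : ℝ, 1 ≤ C ∧ ∀ (N A B : ℕ) (c : ℕ → ℝ) (δ : ℝ), 1 ≤ N → A ≤ B → B ≤ N →
    0 < δ → δ ≤ 1 → δ * N ≤ ‖∑ n ∈ Ico A B, ee (pl d c n)‖ →
    ∃ q : ℕ, 1 ≤ q ∧ (q : ℝ) ≤ C * δ ^ (-C) ∧
      ∀ i < d, ∃ a : ℤ, |q * c i - a| ≤ C * δ ^ (-C) / (N : ℝ) ^ (i + 1)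

/-! ## B. Long lines -/

/-- VH: opening the square. -/
def W_VH : Prop :=
  ∀ (k D N : ℕ) (b : X k) (c : ℕ → ℝ), 1 ≤ D → 1 ≤ N → Lft b c →
    VD D N b ≤ 1 / N + (2 / N) * ∑ h ∈ Ico 1 N,
      ‖(1 / ((D : ℂ) * N)) * ∑ m ∈ range (D * (N - h)),
        ee (pl k c ((m : ℝ) + D * h) - pl k c m)‖

/-- DD: from the coefficients of a difference to the coefficients. -/
def W_DD : Prop :=
  ∀ k : ℕ, ∃ C : ℝ, 1 ≤ C ∧ ∀ (q g : ℕ) (Z : ℝ) (c : ℕ → ℝ) (E : ℝ), (g : ℝ) ≤ Z → 1 ≤ Z →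
    0 ≤ E → (∀ i < k - 1, ∃ a : ℤ, |q * dif k g c i - a| ≤ E / Z ^ (i + 1)) →
    ∀ j, 1 ≤ j → j < k → ∃ a : ℤ, |((Nat.factorial k * q * g : ℕ) : ℝ) * c j - a| ≤
      C * E / Z ^ j

/-- DL: a long line with large mean square has coefficients close to fractions. -/
def W_DL : Prop :=
  ∀ k : ℕ, 2 ≤ k → ∃ C : ℝ, 1 ≤ C ∧ ∀ (D N : ℕ) (b : X k) (c : ℕ → ℝ) (M : ℝ), 1 ≤ D → Lft b c →
    1 ≤ M → 16 * M ≤ N → 1 / M ≤ VD D N b → ∃ q : ℕ, 1 ≤ q ∧ (q : ℝ) ≤ C * M ^ C * N ∧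
      Near k (q * D) (C * M ^ C) ((D : ℝ) * N) c

/-- TF: transport to a subline. -/
def W_TF : Prop :=
  ∀ k : ℕ, ∃ C : ℝ, 1 ≤ C ∧ ∀ (q D G N x : ℕ) (c : ℕ → ℝ) (R : ℝ), 1 ≤ q → 1 ≤ D → 1 ≤ G →
    1 ≤ N → x < G → 0 ≤ R → Near k (q * (D * G)) R (((D * G : ℕ) : ℝ) * N) c →
      Near k (q * D) (C * R) ((D : ℝ) * N) (phr k G x c)

/-- EA: the sums over a line in coordinates. -/
def W_EA : Prop :=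
  ∀ k : ℕ, 1 ≤ k → ∃ C : ℝ, 1 ≤ C ∧ ∀ (q D N x : ℕ) (b : X k) (c : ℕ → ℝ) (R : ℝ), Lft b c →
    1 ≤ q → 1 ≤ D → 1 ≤ N → x < D → Nat.Coprime q D → 0 ≤ R →
    Near k (q * D) R ((D : ℝ) * N) c →
    ∃ (f : Fin k → ℤ) (η : Fin k → ℝ) (ξ : ℝ),
      (∀ i : Fin k, i.val ≠ 0 → phi D x b i = (((f i : ℝ) / q + η i : ℝ) : UnitAddCircle)) ∧
      (∀ i : Fin k, i.val ≠ 0 → |η i| ≤ C * R / (N : ℝ) ^ (i.val + 1)) ∧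
      (∀ i : Fin k, i.val = 0 → phi D x b i = (ξ : UnitAddCircle)) ∧
      ∀ (y : ℕ) (r : ℤ), y < D → (q : ℤ) ∣ (D : ℤ) * r - ((y : ℤ) - x) →
        ‖u N (phi D y b)‖ = ‖HH q f N η ξ r (((y : ℝ) - x) / D)‖

/-- EL: the sums in coordinates depend on the real shift in a Lipschitz way. -/
def W_EL : Prop :=
  ∀ k : ℕ, ∃ C : ℝ, 1 ≤ C ∧ ∀ (q N : ℕ) (f : Fin k → ℤ) (η : Fin k → ℝ) (ξ R : ℝ) (r : ℤ)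
    (σ σ' : ℝ), 1 ≤ q → 1 ≤ N → 0 ≤ R →
    (∀ i : Fin k, i.val ≠ 0 → |η i| ≤ R / (N : ℝ) ^ (i.val + 1)) →
    -1 ≤ σ → σ ≤ 1 → -1 ≤ σ' → σ' ≤ 1 →
    |‖HH q f N η ξ r σ‖ ^ 2 - ‖HH q f N η ξ r σ'‖ ^ 2| ≤ C * R * |σ - σ'|

/-- EB: averaging over a line. -/
def W_EB : Prop :=
  ∀ (q D x : ℕ) (G : ℤ → ℝ → ℝ) (L : ℝ) (r : ℕ → ℤ), 1 ≤ q → 1 ≤ D → x < D → Nat.Coprime q D →
    0 ≤ L → (∀ z σ, 0 ≤ G z σ ∧ G z σ ≤ 1) → (∀ z, Continuous (G z)) →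
    (∀ z σ, G (z + q) σ = G z σ) →
    (∀ z σ σ', -1 ≤ σ → σ ≤ 1 → -1 ≤ σ' → σ' ≤ 1 → |G z σ - G z σ'| ≤ L * |σ - σ'|) →
    (∀ y < D, (q : ℤ) ∣ (D : ℤ) * r y - ((y : ℤ) - x)) →
    (1 / (D : ℝ)) * ∑ y ∈ range D, G (r y) (((y : ℝ) - x) / D) ≤
      (1 / (q : ℝ)) * ∑ z ∈ range q, (∫ σ in (-(x : ℝ) / D)..(-(x : ℝ) / D + 1), G z σ) +
        4 * (1 + L) * q / D

/-- EC: Parseval modulo `q`. -/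
def W_EC : Prop :=
  ∀ (k q N : ℕ) (f : Fin k → ℤ) (η : Fin k → ℝ) (ξ σ : ℝ), 1 ≤ q → 1 ≤ N →
    (1 / (q : ℝ)) * ∑ r ∈ range q, ‖HH q f N η ξ (r : ℤ) σ‖ ^ 2 =
      ∑ l ∈ range q, Al q f (l : ℤ) * ‖TT N η (ξ + (l : ℝ) / q) σ‖ ^ 2

/-- PV: Parseval for the periodisation. -/
def W_PV : Prop :=
  ∀ (k N : ℕ) (η : Fin k → ℝ) (τ s : ℝ), 1 ≤ N →
    HasSum (fun n : ℤ => gI (N : ℝ) η τ (s - n)) (∫ σ in τ..(τ + 1), ‖TT N η s σ‖ ^ 2)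

/-- EQ: the mean square over a line is bounded by the functional. -/
def W_EQ : Prop :=
  ∀ k : ℕ, 1 ≤ k → ∃ C : ℝ, 1 ≤ C ∧ ∀ (q D N x : ℕ) (b : X k) (c : ℕ → ℝ) (R : ℝ), Lft b c →
    1 ≤ q → 1 ≤ D → 1 ≤ N → x < D → Nat.Coprime q D → 1 ≤ R → (q : ℝ) ≤ R →
    Near k (q * D) R ((D : ℝ) * N) c →
    ∃ (f : Fin k → ℤ) (η : Fin k → ℝ) (τ ξ : ℝ), -1 ≤ τ ∧ τ ≤ 0 ∧
      (∀ i : Fin k, i.val ≠ 0 → phi D x b i = (((f i : ℝ) / q + η i : ℝ) : UnitAddCircle)) ∧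
      (∀ i : Fin k, i.val ≠ 0 → |η i| ≤ C * R / (N : ℝ) ^ (i.val + 1)) ∧
      (∀ i : Fin k, i.val = 0 → phi D x b i = (ξ : UnitAddCircle)) ∧
      VD D N b ≤ VF q f (N : ℝ) η τ ξ + C * R ^ 2 / D

/-- RU: the functional for fractions which are not reduced. -/
def W_RU : Prop :=
  ∀ (k q : ℕ) (f : Fin k → ℤ), 1 ≤ q → ∃ (q' : ℕ) (f' : Fin k → ℤ), 1 ≤ q' ∧ q' ≤ q ∧
    (∀ i : Fin k, i.val ≠ 0 → (f i : ℝ) / q = (f' i : ℝ) / q') ∧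
    (∀ d : ℕ, d ∣ q' → (∀ i : Fin k, i.val ≠ 0 → (d : ℤ) ∣ f' i) → d = 1) ∧
    ∀ (N : ℝ) (η : Fin k → ℝ) (τ ξ : ℝ), VF q f N η τ ξ = VF q' f' N η τ ξ

/-- ER: one sum near a rational point. -/
def W_ER : Prop :=
  ∀ k : ℕ, 1 ≤ k → ∃ C : ℝ, 1 ≤ C ∧ ∀ (q N : ℕ) (f : Fin k → ℤ) (η : Fin k → ℝ) (w : X k)
    (R : ℝ), 1 ≤ q → 1 ≤ N → 1 ≤ R →
    (∀ i : Fin k, w i = (((f i : ℝ) / q + η i : ℝ) : UnitAddCircle)) →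
    (∀ i : Fin k, |η i| ≤ R / (N : ℝ) ^ (i.val + 1)) →
    ∃ ξ : ℝ, (∀ i : Fin k, i.val = 0 → w i = (ξ : UnitAddCircle)) ∧
      ‖u N w‖ ^ 2 ≤ VF q f (N : ℝ) η 0 ξ + C * q * R / N

end Pool.Agent.H31.LV
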