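import Pool.Agent.H31.LV.Defs

/-!
# Power saving above the square root barrier: the Weyl end, small tools (helper31)
-/

set_option autoImplicit false

open Finset MeasureTheory

namespace Pool.Agent.H31.LV

open Pool.Agent.H24.CL Pool.Agent.H24.LV

theorem ee_zero : ee 0 = 1 := by simp [ee]

theorem ee_add (x y : ℝ) : ee (x + y) = ee x * ee y := by
  unfold ee
  rw [← Complex.exp_add]
  congr 1
  push_cast
  ring

theorem norm_ee (x : ℝ) : ‖ee x‖ = 1 := Complex.norm_exp_ofReal_mul_I _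

theorem ee_neg (x : ℝ) : ee (-x) = (starRingEnd ℂ) (ee x) := by
  unfold ee
  rw [← Complex.exp_conj]
  congr 1
  rw [map_mul, Complex.conj_I, Complex.conj_ofReal]
  push_cast
  ring

theorem ee_sub (x y : ℝ) : ee (x - y) = ee x * (starRingEnd ℂ) (ee y) := by
  rw [sub_eq_add_neg, ee_add, ee_neg]

theorem ee_int (n : ℤ) : ee (n : ℝ) = 1 := by
  unfold ee
  rw [Complex.exp_eq_one_iff]
  exact ⟨n, by push_cast; ring⟩

theorem ee_add_int (x : ℝ) (n : ℤ) : ee (x + n) = ee x := by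
  rw [ee_add, ee_int, mul_one]

/-- numbers with an integral difference -/
theorem ee_congr (x y : ℝ) (n : ℤ) (h : x - y = n) : ee x = ee y := by
  have : x = y + n := by linarith
  rw [this, ee_add_int]

theorem e_coe (x : ℝ) : e ((x : ℝ) : UnitAddCircle) = ee x := by
  unfold e ee
  rw [AddCircle.toCircle_apply_mk, Circle.coe_exp]
  congr 2
  push_cast
  ring

theorem ee_pow (x : ℝ) (n : ℕ) : ee (n * x) = ee x ^ n := by
  unfold ee
  rw [← Complex.exp_nat_mul]
  congr 1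
  push_cast
  ring

theorem norm_ee_sub (x y : ℝ) : ‖ee x - ee y‖ ≤ 2 * Real.pi * |x - y| := by
  have h1 : ee x - ee y = ee y * (ee (x - y) - 1) := by
    rw [mul_sub, ← ee_add, mul_one]
    congr 2
    ring
  rw [h1, norm_mul, norm_ee, one_mul]
  unfold ee
  have h2 := Real.norm_exp_I_mul_ofReal_sub_one_le (x := 2 * Real.pi * (x - y))
  rw [mul_comm (Complex.I)] at h2
  refine h2.trans ?_
  rw [Real.norm_eq_abs, abs_mul, abs_of_pos (by positivity : (0 : ℝ) < 2 * Real.pi)]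

theorem continuous_ee : Continuous ee := by
  unfold ee
  fun_prop

/-- the phase of a point with the lift `c` -/
theorem e_P {k : ℕ} {w : X k} {c : ℕ → ℝ} (h : Lft w c) (n : ℕ) : e (P w n) = ee (pl k c n) := by
  rw [← e_coe]
  congr 1
  unfold P pl
  rw [← Fin.sum_univ_eq_sum_range (fun i => c i * (n : ℝ) ^ (i + 1)) k]
  rw [show ((∑ i : Fin k, c i.val * (n : ℝ) ^ (i.val + 1) : ℝ) : UnitAddCircle) =
    ∑ i : Fin k, ((c i.val * (n : ℝ) ^ (i.val + 1) : ℝ) : UnitAddCircle) from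
      map_sum (QuotientAddGroup.mk' _) _ _]
  apply Finset.sum_congr rfl
  intro i _
  rw [h i]
  rw [show (n ^ (i.val + 1)) • ((c i.val : ℝ) : UnitAddCircle) =
    (((n ^ (i.val + 1)) • c i.val : ℝ) : UnitAddCircle) from
      (map_nsmul (QuotientAddGroup.mk' _) _ _).symm]
  congr 1
  rw [nsmul_eq_mul]
  push_cast
  ring

theorem u_eq {k : ℕ} {w : X k} {c : ℕ → ℝ} (h : Lft w c) (N : ℕ) :
    u N w = (1 / (N : ℂ)) * ∑ n ∈ range N, ee (pl k c n) := by
  unfold u f
  rw [div_eq_mul_one_div, mul_comm]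
  congr 1
  apply Finset.sum_congr rfl
  intro n _
  exact e_P h n

theorem ex_Lft {k : ℕ} (w : X k) : ∃ c : ℕ → ℝ, Lft w c := by
  have h : ∀ i : Fin k, ∃ x : ℝ, w i = ((x : ℝ) : UnitAddCircle) := by
    intro i
    obtain ⟨x, hx⟩ := QuotientAddGroup.mk_surjective (w i)
    exact ⟨x, hx.symm⟩
  choose x hx using h
  refine ⟨fun i => if hi : i < k then x ⟨i, hi⟩ else 0, ?_⟩
  intro i
  rw [hx i]
  simp only [i.isLt, dite_true]

/-- the lift of `phi q b w` -/
theorem Lft_phr {k : ℕ} {w : X k} {c : ℕ → ℝ} (h : Lft w c) (q b : ℕ) :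
    Lft (phi q b w) (phr k q b c) := by
  intro i
  show (∑ j : Fin k, (Nat.choose (j.val + 1) (i.val + 1) * b ^ (j.val - i.val) *
    q ^ (i.val + 1)) • w j) = _
  have h1 : ∀ j : Fin k, (Nat.choose (j.val + 1) (i.val + 1) * b ^ (j.val - i.val) *
      q ^ (i.val + 1)) • w j =
      ((((Nat.choose (j.val + 1) (i.val + 1) : ℝ) * (b : ℝ) ^ (j.val - i.val) *
        (q : ℝ) ^ (i.val + 1) * c j.val : ℝ)) : UnitAddCircle) := by
    intro j
    rw [h j]
    rw [show ∀ (m : ℕ) (x : ℝ), m • ((x : ℝ) : UnitAddCircle) = ((m • x : ℝ) : UnitAddCircle)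
      from fun m x => (map_nsmul (QuotientAddGroup.mk' _) _ _).symm]
    congr 1
    rw [nsmul_eq_mul]
    push_cast
    ring
  rw [Finset.sum_congr rfl (fun j _ => h1 j)]
  rw [show ∑ j : Fin k, ((((Nat.choose (j.val + 1) (i.val + 1) : ℝ) * (b : ℝ) ^ (j.val - i.val) *
        (q : ℝ) ^ (i.val + 1) * c j.val : ℝ)) : UnitAddCircle) =
      ((∑ j : Fin k, (Nat.choose (j.val + 1) (i.val + 1) : ℝ) * (b : ℝ) ^ (j.val - i.val) *
        (q : ℝ) ^ (i.val + 1) * c j.val : ℝ) : UnitAddCircle) from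
      (map_sum (QuotientAddGroup.mk' (AddSubgroup.zmultiples (1 : ℝ))) _ _).symm]
  congr 1
  rw [Fin.sum_univ_eq_sum_range (fun j => (Nat.choose (j + 1) (i.val + 1) : ℝ) *
    (b : ℝ) ^ (j - i.val) * (q : ℝ) ^ (i.val + 1) * c j) k]
  unfold phr
  symm
  apply Finset.sum_subset
  · intro j hj
    rw [Finset.mem_Ico] at hj
    exact Finset.mem_range.mpr hj.2
  · intro j hj hj'
    rw [Finset.mem_range] at hj
    rw [Finset.mem_Ico] at hj'
    have : j < i.val := by omega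
    rw [Nat.choose_eq_zero_of_lt (by omega)]
    simp

/-- Taylor expansion -/
theorem pl_phr (k q b : ℕ) (c : ℕ → ℝ) (y : ℝ) :
    pl k (phr k q b c) y = pl k c (b + q * y) - pl k c b := by
  unfold pl phr
  rw [← Finset.sum_sub_distrib]
  have h1 : ∀ j ∈ range k, c j * ((b : ℝ) + q * y) ^ (j + 1) - c j * (b : ℝ) ^ (j + 1) =
      ∑ i ∈ range (j + 1), (Nat.choose (j + 1) (i + 1) : ℝ) * (b : ℝ) ^ (j - i) *
        (q : ℝ) ^ (i + 1) * c j * y ^ (i + 1) := by
    intro j _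
    rw [← mul_sub, add_comm (b : ℝ), add_pow, Finset.sum_range_succ']
    simp only [pow_zero, Nat.sub_zero, one_mul, Nat.choose_zero_right, Nat.cast_one, mul_one,
      add_sub_cancel_right]
    rw [Finset.mul_sum]
    apply Finset.sum_congr rfl
    intro i _
    have e1 : j + 1 - (i + 1) = j - i := by omega
    rw [e1]
    ring
  rw [Finset.sum_congr rfl h1]
  simp only [Finset.sum_mul]
  rw [Finset.sum_sigma', Finset.sum_sigma']
  apply Finset.sum_nbij' (fun x => ⟨x.2, x.1⟩) (fun x => ⟨x.2, x.1⟩)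
  · intro x hx
    simp only [Finset.mem_sigma, Finset.mem_range, Finset.mem_Ico] at hx ⊢
    omega
  · intro x hx
    simp only [Finset.mem_sigma, Finset.mem_range, Finset.mem_Ico] at hx ⊢
    omega
  · intro x _
    rfl
  · intro x _
    rfl
  · intro x _
    rfl

theorem phr_one (k g : ℕ) (c : ℕ → ℝ) (i : ℕ) (hi : i < k) :
    phr k 1 g c i = c i + dif k g c i := by
  unfold phr dif
  rw [Finset.sum_eq_sum_Ico_succ_bot hi]
  simp

theorem dif_top (k g : ℕ) (c : ℕ → ℝ) (i : ℕ) (hi : k ≤ i + 1) : dif k g c i = 0 := by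
  unfold dif
  rw [Finset.Ico_eq_empty (by omega), Finset.sum_empty]

/-- the difference of two values -/
theorem pl_dif (k g : ℕ) (c : ℕ → ℝ) (y : ℝ) :
    pl k c (y + g) - pl k c y = pl k c g + pl (k - 1) (dif k g c) y := by
  have h1 := pl_phr k 1 g c y
  rw [Nat.cast_one, one_mul] at h1
  have h2 : pl k (phr k 1 g c) y = pl k c y + pl k (dif k g c) y := by
    unfold pl
    rw [← Finset.sum_add_distrib]
    apply Finset.sum_congr rfl
    intro i hi
    rw [phr_one k g c i (Finset.mem_range.mp hi)]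
    ring
  have h3 : pl k (dif k g c) y = pl (k - 1) (dif k g c) y := by
    unfold pl
    rcases Nat.eq_zero_or_pos k with rfl | hk
    · rfl
    · obtain ⟨m, rfl⟩ : ∃ m, k = m + 1 := ⟨k - 1, by omega⟩
      rw [Nat.add_sub_cancel, Finset.sum_range_succ, dif_top (m + 1) g c m le_rfl]
      ring
  rw [add_comm y (g : ℝ)]
  linarith

theorem Ps_eq {k : ℕ} (η : Fin k → ℝ) (x : ℝ) : Ps η x = ∑ i : Fin k, (if i.val = 0 then 0 else
    η i * x ^ (i.val + 1)) := rfl

/-- `gI` with `ee` -/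
theorem gI_eq {k : ℕ} (N : ℝ) (η : Fin k → ℝ) (τ s : ℝ) :
    gI N η τ s = ‖(1 / (N : ℂ)) * ∫ x in τ..(τ + N), ee (s * x + Ps η x)‖ ^ 2 := by
  unfold gI
  simp only [e_coe, Ps]

/-- `Al` with `ee` -/
theorem Al_eq {k : ℕ} (q : ℕ) (f : Fin k → ℤ) (l : ℤ) :
    Al q f l = ‖(1 / (q : ℂ)) * ∑ z ∈ range q, ee (((Fz f z : ℝ) - l * z) / q)‖ ^ 2 := by
  unfold Al
  simp only [e_coe]
  have h : ∀ z : ℕ, (∑ i : Fin k, (if i.val = 0 then 0 else (f i : ℝ) * (z : ℝ) ^ (i.val + 1))) =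
      (Fz f z : ℝ) := by
    intro z
    unfold Fz
    push_cast
    rfl
  simp only [h]

theorem gI_nonneg {k : ℕ} (N : ℝ) (η : Fin k → ℝ) (τ s : ℝ) : 0 ≤ gI N η τ s := by
  unfold gI
  positivity

theorem Al_nonneg {k : ℕ} (q : ℕ) (f : Fin k → ℤ) (l : ℤ) : 0 ≤ Al q f l := by
  unfold Al
  positivity

end Pool.Agent.H31.LV
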