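import Pool.Agent.H24.LV.TargetsE

/-!
# Power saving above the square root barrier: the Weyl end, definitions (helper31)

Sections 6 and 7 of the page E21_LV.md. Everything is stated with real lifts `c : ℕ → ℝ` of the
points of the torus: the number `c i` belongs to the exponent `i + 1`.
-/

set_option autoImplicit false

open Finset MeasureTheory

namespace Pool.Agent.H31.LV

open Pool.Agent.H24.CL Pool.Agent.H24.LV

/-- `exp (2 π i x)` for real `x` -/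
noncomputable def ee (x : ℝ) : ℂ := Complex.exp (((2 * Real.pi * x : ℝ) : ℂ) * Complex.I)

/-- the real polynomial `∑_{i < d} c_i x^(i+1)` -/
noncomputable def pl (d : ℕ) (c : ℕ → ℝ) (x : ℝ) : ℝ := ∑ i ∈ range d, c i * x ^ (i + 1)

/-- `c` is a real lift of `w` -/
def Lft {k : ℕ} (w : X k) (c : ℕ → ℝ) : Prop := ∀ i : Fin k, w i = ((c i.val : ℝ) : UnitAddCircle)

/-- the real lift of `phi q b`: the coefficients of `pl k c (b + q X) - pl k c b` -/
noncomputable def phr (k q b : ℕ) (c : ℕ → ℝ) (i : ℕ) : ℝ :=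
  ∑ j ∈ Ico i k, (Nat.choose (j + 1) (i + 1) : ℝ) * (b : ℝ) ^ (j - i) * (q : ℝ) ^ (i + 1) * c j

/-- the coefficients of `pl k c (X + g) - pl k c X` -/
noncomputable def dif (k g : ℕ) (c : ℕ → ℝ) (i : ℕ) : ℝ :=
  ∑ j ∈ Ico (i + 1) k, (Nat.choose (j + 1) (i + 1) : ℝ) * (g : ℝ) ^ (j - i) * c j

/-- the integer value of `F = ∑_{i ≥ 1} f_i z^(i+1)` -/
def Fz {k : ℕ} (f : Fin k → ℤ) (z : ℤ) : ℤ := ∑ i : Fin k, if i.val = 0 then 0 else
  f i * z ^ (i.val + 1)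

/-- the real value of `ψ = ∑_{i ≥ 1} η_i x^(i+1)` -/
noncomputable def Ps {k : ℕ} (η : Fin k → ℝ) (x : ℝ) : ℝ := ∑ i : Fin k, if i.val = 0 then 0 else
  η i * x ^ (i.val + 1)

/-- the sum of length `N` on the line, in the coordinates class `r` modulo `q` and real shift `σ` -/
noncomputable def HH {k : ℕ} (q : ℕ) (f : Fin k → ℤ) (N : ℕ) (η : Fin k → ℝ) (ξ : ℝ) (r : ℤ)
    (σ : ℝ) : ℂ :=
  (1 / (N : ℂ)) * ∑ n ∈ range N, ee ((Fz f ((n : ℤ) + r) : ℝ) / q + ξ * n + Ps η (n + σ))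

/-- the sum over the shifted positions `n + σ` with the linear phase `s` -/
noncomputable def TT {k : ℕ} (N : ℕ) (η : Fin k → ℝ) (s σ : ℝ) : ℂ :=
  (1 / (N : ℂ)) * ∑ n ∈ range N, ee (s * (n + σ) + Ps η (n + σ))

/-- the coefficients `c_i` with `1 ≤ i < k` are close to fractions with the denominator `Q`:
`|c_i - a/Q| ≤ E / Z^(i+1)` -/
def Near (k : ℕ) (Q : ℕ) (E Z : ℝ) (c : ℕ → ℝ) : Prop :=
  ∀ j, 1 ≤ j → j < k → ∃ a : ℤ, |c j - (a : ℝ) / Q| ≤ E / Z ^ (j + 1)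

end Pool.Agent.H31.LV
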